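import Mathlib

/-!
A defective irreducible affine cone whose secant matroid is a Terracini union and whose matroid
has neither a loop nor a coloop.
-/

set_option autoImplicit false
set_option linter.unusedSectionVars false

namespace Pool.Agent.Results.MP_0cb83c_co.NoColoop

open MvPolynomial Finset

section defs

variable {K : Type} [Field K] {σ : Type} [Fintype σ] [DecidableEq σ]

/-- `X` is an irreducible affine cone: it is Zariski closed, and its vanishing ideal is a
homogeneous prime ideal. -/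
def IsIrrCone (X : Set (σ → K)) : Prop :=
  zeroLocus K (vanishingIdeal K X) = X ∧ (vanishingIdeal K X).IsPrime ∧
    ∀ p ∈ vanishingIdeal K X, ∀ d : ℕ, homogeneousComponent d p ∈ vanishingIdeal K X

/-- The set `E` of variables is independent in the algebraic matroid `M(X)`: no nonzero polynomial
in the variables of `E` vanishes on `X`. -/
def Indep (X : Set (σ → K)) (E : Finset σ) : Prop :=
  ∀ p ∈ vanishingIdeal K X, p.vars ⊆ E → p = 0

/-- The secant variety `X^{2}`: the Zariski closure of the set of the sums `x + y`. -/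
def secant (X : Set (σ → K)) : Set (σ → K) :=
  zeroLocus K (vanishingIdeal K {z : σ → K | ∃ x ∈ X, ∃ y ∈ X, z = x + y})

/-- The dimension of `X`: the rank of `M(X)`. -/
noncomputable def dim (X : Set (σ → K)) : ℕ := sSup {k | ∃ E : Finset σ, Indep X E ∧ E.card = k}

/-- `X` is defective. -/
def Defective (X : Set (σ → K)) : Prop := dim (secant X) < min (2 * dim X) (Fintype.card σ)

/-- `M(X^{2}) = 2 M(X)`: the independent sets of `M(X^{2})` are the unions of two independent sets
of `M(X)`. -/
def TerraciniUnion (X : Set (σ → K)) : Prop :=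
  ∀ E : Finset σ, Indep (secant X) E ↔ ∃ I J, Indep X I ∧ Indep X J ∧ E = I ∪ J

/-- `e` is a loop of `M(X)`. -/
def IsLoop (X : Set (σ → K)) (e : σ) : Prop := ∀ E : Finset σ, Indep X E → e ∉ E

/-- `E` is a basis of `M(X)`. -/
def IsBasis (X : Set (σ → K)) (E : Finset σ) : Prop :=
  Indep X E ∧ ∀ E' : Finset σ, Indep X E' → E ⊆ E' → E' = E

/-- `e` is a coloop of `M(X)`. -/
def IsColoop (X : Set (σ → K)) (e : σ) : Prop := ∀ E : Finset σ, IsBasis X E → e ∈ E

end defs

/-! ### The Jacobian criterion -/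

section jac

variable {K : Type} [Field K] {σ τ : Type} [Fintype σ] [DecidableEq σ] [Fintype τ] [DecidableEq τ]

lemma chain (f : σ → MvPolynomial τ K) (j : τ) (p : MvPolynomial σ K) :
    pderiv j (aeval f p) = ∑ e, aeval f (pderiv e p) * pderiv j (f e) := by
  induction p using MvPolynomial.induction_on with
  | C a => simp
  | add p q hp hq =>
    rw [map_add, map_add, hp, hq, ← sum_add_distrib]
    refine sum_congr rfl fun e _ => ?_
    rw [map_add, map_add, add_mul]
  | mul_X p n hp =>
    rw [map_mul, aeval_X, pderiv_mul, hp]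
    have h1 : ∀ e, aeval f (pderiv e (p * X n)) * pderiv j (f e) =
        aeval f (pderiv e p) * pderiv j (f e) * f n +
          (if e = n then aeval f p * pderiv j (f n) else 0) := by
      intro e
      rw [pderiv_mul, map_add, map_mul, map_mul, aeval_X, pderiv_X]
      by_cases h : e = n
      · subst h
        simp
        ring
      · rw [if_neg h, Pi.single_eq_of_ne (Ne.symm h)]
        simp
        ring
    rw [sum_congr rfl fun e _ => h1 e, sum_add_distrib, sum_mul]
    simp

lemma totalDegree_pderiv_le (p : MvPolynomial σ K) (e : σ) {n : ℕ} (hp : p.totalDegree ≤ n + 1) :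
    (pderiv e p).totalDegree ≤ n := by
  unfold totalDegree
  apply Finset.sup_le
  intro m hm
  rw [mem_support_iff, coeff_pderiv] at hm
  have h1 : m + Finsupp.single e 1 ∈ p.support := by
    rw [mem_support_iff]
    exact left_ne_zero_of_mul hm
  have h2 := (le_totalDegree h1).trans hp
  rw [Finsupp.sum_add_index' (fun _ => rfl) (fun _ _ _ => rfl), Finsupp.sum_single_index rfl] at h2
  omega

lemma eq_C_of_pderiv [CharZero K] (p : MvPolynomial σ K) (h : ∀ e, pderiv e p = 0) :
    p = C (coeff 0 p) := by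
  ext m
  by_cases hm : m = 0
  · subst hm
    simp
  · rw [coeff_C, if_neg (Ne.symm hm)]
    obtain ⟨e, he⟩ : ∃ e, m e ≠ 0 := by
      by_contra hcon
      push Not at hcon
      exact hm (Finsupp.ext hcon)
    have h1 := congrArg (coeff (m - Finsupp.single e 1)) (h e)
    have hle : Finsupp.single e 1 ≤ m := by
      rw [Finsupp.single_le_iff]
      omega
    rw [coeff_pderiv, tsub_add_cancel_of_le hle, coeff_zero] at h1
    rcases mul_eq_zero.1 h1 with h2 | h2
    · exact h2
    · exact absurd h2 (Nat.cast_add_one_ne_zero _)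

lemma jac_aux [CharZero K] (f : σ → MvPolynomial τ K)
    (hJ : ∀ g : σ → MvPolynomial τ K, (∀ j, ∑ e, g e * pderiv j (f e) = 0) → ∀ e, g e = 0) :
    ∀ (n : ℕ) (p : MvPolynomial σ K), p.totalDegree ≤ n → aeval f p = 0 → p = 0 := by
  intro n
  induction n with
  | zero =>
    intro p hp hf
    rw [Nat.le_zero, totalDegree_eq_zero_iff_eq_C] at hp
    rw [hp, aeval_C] at hf
    rw [hp]
    have : coeff 0 p = 0 := C_eq_zero.1 hf
    rw [this, C_0]
  | succ n ih =>
    intro p hp hf
    have h1 : ∀ e, pderiv e p = 0 := by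
      intro e
      refine ih _ (totalDegree_pderiv_le p e hp) ?_
      refine hJ (fun e => aeval f (pderiv e p)) ?_ e
      intro j
      rw [← chain, hf, map_zero]
    have h2 := eq_C_of_pderiv p h1
    rw [h2, aeval_C] at hf
    rw [h2]
    have : coeff 0 p = 0 := C_eq_zero.1 hf
    rw [this, C_0]

lemma jac_det [CharZero K] {k : ℕ} (f : Fin k → MvPolynomial τ K) (r : Fin k → τ) (pt : τ → K)
    (hdet : (Matrix.of fun i l => eval pt (pderiv (r l) (f i))).det ≠ 0) (p : MvPolynomial (Fin k) K)
    (hp : aeval f p = 0) : p = 0 := by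
  refine jac_aux f ?_ _ p le_rfl hp
  intro g hg
  have hdet' : (Matrix.of fun i l => pderiv (r l) (f i)).det ≠ 0 := by
    intro h0
    apply hdet
    have h1 := congrArg (eval pt) h0
    rw [RingHom.map_det, map_zero] at h1
    exact h1
  have h2 : Matrix.vecMul g (Matrix.of fun i l => pderiv (r l) (f i)) = 0 := by
    funext l
    exact hg (r l)
  exact congrFun (Matrix.eq_zero_of_vecMul_eq_zero hdet' h2)

end jac

/-! ### Independence in images of polynomial maps -/

section indep

variable {K : Type} [Field K] {σ : Type} [Fintype σ] [DecidableEq σ]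

lemma Indep.mono {X : Set (σ → K)} {E E' : Finset σ} (h : Indep X E') (hE : E ⊆ E') : Indep X E :=
  fun p hp hv => h p hp (hv.trans hE)

lemma indep_closure (X : Set (σ → K)) (E : Finset σ) :
    Indep (zeroLocus K (vanishingIdeal K X)) E ↔ Indep X E := by
  have h : vanishingIdeal K (zeroLocus K (vanishingIdeal K X)) = vanishingIdeal K X := by
    apply le_antisymm
    · exact vanishingIdeal_anti_mono (zeroLocus_vanishingIdeal_le X)
    · exact le_vanishingIdeal_zeroLocus _
  unfold Indep
  rw [h]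

lemma eval_aeval {τ ι : Type} (x : τ → K) (f : ι → MvPolynomial τ K) (q : MvPolynomial ι K) :
    eval x (aeval f q) = aeval (fun i => eval x (f i)) q := by
  induction q using MvPolynomial.induction_on with
  | C a => simp
  | add p q hp hq => rw [map_add, map_add, map_add, hp, hq]
  | mul_X p n hp => rw [map_mul, map_mul, map_mul, hp, aeval_X, aeval_X]

lemma aeval_aeval {τ ι : Type} (x : τ → K) (f : ι → MvPolynomial τ K) (q : MvPolynomial ι K) :
    aeval x (aeval f q) = aeval (fun i => aeval x (f i)) q := by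
  induction q using MvPolynomial.induction_on with
  | C a => simp
  | add p q hp hq => rw [map_add, map_add, map_add, hp, hq]
  | mul_X p n hp => rw [map_mul, map_mul, map_mul, hp, aeval_X, aeval_X]

lemma indep_of_det [CharZero K] [Infinite K] {τ : Type} [Fintype τ] [DecidableEq τ] {k : ℕ}
    {S : Set (σ → K)} (c : Fin k → σ) (hc : Function.Injective c) (φ : σ → MvPolynomial τ K)
    (hφ : ∀ x : τ → K, (fun i => eval x (φ i)) ∈ S) (r : Fin k → τ) (pt : τ → K)
    (hdet : (Matrix.of fun i l => eval pt (pderiv (r l) (φ (c i)))).det ≠ 0) :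
    Indep S (univ.image c) := by
  intro p hp hv
  obtain ⟨q, rfl⟩ := exists_rename_eq_of_vars_subset_range p c hc (by
    intro e he
    obtain ⟨i, -, hi⟩ := mem_image.1 (hv he)
    exact ⟨i, hi⟩)
  have h1 : aeval (fun i => φ (c i)) q = 0 := by
    apply MvPolynomial.funext
    intro x
    have h2 := hp _ (hφ x)
    rw [aeval_rename] at h2
    rw [map_zero, ← h2, eval_aeval]
    rfl
  rw [jac_det _ r pt hdet q h1, map_zero]

end indep

/-! ### Rational normal curves -/

section rnc

variable {K : Type} [Field K]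

/-- The cone over the rational normal curve of degree `d`. -/
def rnc (K : Type) [Field K] (d : ℕ) : Set (Fin (d + 1) → K) :=
  {z | ∃ s t : K, ∀ i : Fin (d + 1), z i = s ^ (d - (i : ℕ)) * t ^ (i : ℕ)}

/-- The set of sums of two points of the cone. -/
def rnc2 (K : Type) [Field K] (d : ℕ) : Set (Fin (d + 1) → K) :=
  {z | ∃ x ∈ rnc K d, ∃ y ∈ rnc K d, z = x + y}

lemma moment_mem [IsAlgClosed K] {d : ℕ} (hd : d ≠ 0) (l x : K) :
    (fun i : Fin (d + 1) => l * x ^ (i : ℕ)) ∈ rnc K d := by
  obtain ⟨s, hs⟩ := IsAlgClosed.exists_pow_nat_eq l (Nat.pos_of_ne_zero hd)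
  refine ⟨s, s * x, fun i => ?_⟩
  have hi : (i : ℕ) ≤ d := Nat.lt_succ_iff.1 i.2
  change l * x ^ (i : ℕ) = _
  rw [mul_pow, ← mul_assoc, ← pow_add, Nat.sub_add_cancel hi, hs]

lemma rnc_closed [IsAlgClosed K] {d : ℕ} (hd : d ≠ 0) (z : Fin (d + 1) → K)
    (h : ∀ i j k l : Fin (d + 1), (i : ℕ) + j = k + l → z i * z j = z k * z l) : z ∈ rnc K d := by
  have hd0 : 0 < d := Nat.pos_of_ne_zero hd
  by_cases h0 : z 0 = 0
  · obtain ⟨t, ht⟩ := IsAlgClosed.exists_pow_nat_eq (z (Fin.last d)) hd0
    have hz : ∀ n : ℕ, ∀ hn : n < d, z ⟨n, by omega⟩ = 0 := by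
      intro n
      induction n with
      | zero => intro _; exact h0
      | succ n ih =>
        intro hn
        have h1 := h ⟨n + 1, by omega⟩ ⟨n + 1, by omega⟩ ⟨n, by omega⟩ ⟨n + 2, by omega⟩
          (by simp; omega)
        rw [ih (by omega), zero_mul] at h1
        exact mul_self_eq_zero.1 h1
    refine ⟨0, t, fun i => ?_⟩
    by_cases hi : (i : ℕ) < d
    · rw [zero_pow (by omega), zero_mul]
      exact hz i hi
    · have hi' : i = Fin.last d := Fin.ext (by simp; omega)
      rw [hi', ← ht]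
      simp
  · have hz : ∀ n : ℕ, ∀ hn : n < d + 1, z ⟨n, hn⟩ = z 0 * (z ⟨1, by omega⟩ / z 0) ^ n := by
      intro n
      induction n with
      | zero => intro _; simp
      | succ n ih =>
        intro hn
        have h1 := h ⟨0, by omega⟩ ⟨n + 1, hn⟩ ⟨1, by omega⟩ ⟨n, by omega⟩ (by simp; omega)
        rw [ih (by omega)] at h1
        have h2 : z 0 * z ⟨n + 1, hn⟩ = z ⟨1, by omega⟩ * (z 0 * (z ⟨1, by omega⟩ / z 0) ^ n) := h1
        apply mul_left_cancel₀ h0
        rw [h2, pow_succ]
        field_simp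
    have h2 := moment_mem hd (z 0) (z ⟨1, by omega⟩ / z 0)
    convert h2 using 1
    funext i
    exact hz i i.2

lemma rnc_smul [IsAlgClosed K] {d : ℕ} (hd : d ≠ 0) {z : Fin (d + 1) → K} (hz : z ∈ rnc K d)
    (c : K) : (fun i => c * z i) ∈ rnc K d := by
  obtain ⟨s, t, h⟩ := hz
  obtain ⟨l, hl⟩ := IsAlgClosed.exists_pow_nat_eq c (Nat.pos_of_ne_zero hd)
  refine ⟨l * s, l * t, fun i => ?_⟩
  have hi : (i : ℕ) ≤ d := Nat.lt_succ_iff.1 i.2
  change c * z i = _
  rw [h i, mul_pow, mul_pow, ← hl]
  have : l ^ d = l ^ (d - (i : ℕ)) * l ^ (i : ℕ) := by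
    rw [← pow_add, Nat.sub_add_cancel hi]
  rw [this]
  ring

variable [IsAlgClosed K] [CharZero K]



omit [IsAlgClosed K] [CharZero K] in
lemma pd {τ : Type} [DecidableEq τ] (a b c : τ) (n : ℕ) :
    pderiv c (X a * X b ^ n : MvPolynomial τ K) =
      (if a = c then X b ^ n else 0) +
        (if b = c then (n : MvPolynomial τ K) * X a * X b ^ (n - 1) else 0) := by
  rw [pderiv_mul, pderiv_pow, pderiv_X, pderiv_X, Pi.single_apply, Pi.single_apply]
  split_ifs <;> ring

/-- Two coordinates are independent on the cone. -/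
lemma rnc_pair {d : ℕ} (hd : d ≠ 0) {i j : Fin (d + 1)} (hij : i < j) :
    Indep (rnc K d) {i, j} := by
  have hne : i ≠ j := hij.ne
  have h := indep_of_det (K := K) (τ := Fin 2) (S := rnc K d) ![i, j] ?_
    (fun i => X 0 * X 1 ^ (i : ℕ)) ?_ ![0, 1] (fun _ => 1) ?_
  · have e : univ.image ![i, j] = {i, j} := by
      ext e
      simp [eq_comm]
    rwa [e] at h
  · intro a b hab
    fin_cases a <;> fin_cases b <;> simp_all
  · intro x
    simpa using moment_mem hd (x 0) (x 1)
  · rw [Matrix.det_fin_two]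
    simp only [Matrix.of_apply, pd, Matrix.cons_val_zero, Matrix.cons_val_one, Matrix.cons_val_fin_one]
    simp only [if_true, one_ne_zero, zero_ne_one, if_false, add_zero, zero_add]
    simp only [map_mul, map_pow, eval_X, map_natCast, one_pow, mul_one, one_mul]
    rw [sub_ne_zero]
    intro h
    exact hne (Fin.ext (Nat.cast_injective h).symm)

/-- The parametrization of the sums. -/
noncomputable def phi2 (K : Type) [Field K] (d : ℕ) (i : Fin (d + 1)) : MvPolynomial (Fin 4) K :=
  X 0 * X 1 ^ (i : ℕ) + X 2 * X 3 ^ (i : ℕ)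

lemma phi2_mem {d : ℕ} (hd : d ≠ 0) (x : Fin 4 → K) :
    (fun i => eval x (phi2 K d i)) ∈ rnc2 K d := by
  refine ⟨_, moment_mem hd (x 0) (x 1), _, moment_mem hd (x 2) (x 3), ?_⟩
  funext i
  simp [phi2]

omit [IsAlgClosed K] [CharZero K] in
lemma phi2_pd {d : ℕ} (i : Fin (d + 1)) :
    eval ![1, 1, 1, 2] (pderiv 0 (phi2 K d i)) = 1 ∧
    eval ![1, 1, 1, 2] (pderiv 1 (phi2 K d i)) = (i : ℕ) ∧
    eval ![1, 1, 1, 2] (pderiv 2 (phi2 K d i)) = 2 ^ (i : ℕ) ∧
    eval ![1, 1, 1, 2] (pderiv 3 (phi2 K d i)) = (i : ℕ) * 2 ^ ((i : ℕ) - 1) := by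
  refine ⟨?_, ?_, ?_, ?_⟩ <;>
  · unfold phi2
    rw [map_add, pd, pd]
    simp

/-- Every four of the five coordinates are independent on the sums for `d = 4`. -/
lemma rnc2_four (k : Fin 5) : Indep (rnc2 K 4) (univ.erase k) := by
  have h := indep_of_det (K := K) (τ := Fin 4) (S := rnc2 K 4) k.succAbove
    (Fin.succAbove_right_injective) (phi2 K 4) (phi2_mem (by norm_num)) id ![1, 1, 1, 2] ?_
  · have e : univ.image k.succAbove = univ.erase k := by
      ext e
      simp only [mem_image, mem_univ, true_and, mem_erase, and_true]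
      rw [← Set.mem_range, Fin.range_succAbove]
      simp
    rwa [e] at h
  · have hM : (Matrix.of fun i l => eval ![1, 1, 1, 2] (pderiv (id l) (phi2 K 4 (k.succAbove i)))) =
        Matrix.of fun i : Fin 4 => ![1, ((k.succAbove i : ℕ) : K), 2 ^ (k.succAbove i : ℕ),
          ((k.succAbove i : ℕ) : K) * 2 ^ ((k.succAbove i : ℕ) - 1)] := by
      ext i l
      obtain ⟨h0, h1, h2, h3⟩ := phi2_pd (K := K) (k.succAbove i)
      fin_cases l
      · exact h0
      · exact h1
      · exact h2
      · exact h3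
    rw [hM]
    have key : ∀ c : Fin 4 → ℕ, (c = ![1, 2, 3, 4] ∨ c = ![0, 2, 3, 4] ∨ c = ![0, 1, 3, 4] ∨
        c = ![0, 1, 2, 4] ∨ c = ![0, 1, 2, 3]) →
        (Matrix.of fun i : Fin 4 => (![1, (c i : K), 2 ^ (c i),
          (c i : K) * 2 ^ (c i - 1)] : Fin 4 → K)).det ≠ 0 := by
      rintro c (rfl | rfl | rfl | rfl | rfl) <;>
        simp [Matrix.det_succ_row_zero, Fin.sum_univ_succ, Fin.succAbove] <;> norm_num
    apply key fun i => (k.succAbove i : ℕ)
    clear hM key
    revert k
    decide

/-- The three coordinates are independent on the sums for `d = 2`. -/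
lemma rnc2_three : Indep (rnc2 K 2) univ := by
  have h := indep_of_det (K := K) (τ := Fin 4) (S := rnc2 K 2) (id : Fin 3 → Fin 3)
    Function.injective_id (phi2 K 2) (phi2_mem (by norm_num)) ![0, 1, 2] ![1, 1, 1, 2] ?_
  · rwa [image_id] at h
  · have hM : (Matrix.of fun i l => eval ![1, 1, 1, 2]
          (pderiv ((![0, 1, 2] : Fin 3 → Fin 4) l) (phi2 K 2 (id i)))) =
        Matrix.of fun i : Fin 3 => ![1, ((i : ℕ) : K), 2 ^ (i : ℕ)] := by
      ext i l
      obtain ⟨h0, h1, h2, h3⟩ := phi2_pd (K := K) i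
      fin_cases l
      · exact h0
      · exact h1
      · exact h2
    rw [hM]
    simp [Matrix.det_succ_row_zero, Fin.sum_univ_succ, Fin.succAbove]
    try norm_num

omit [IsAlgClosed K] [CharZero K] in
lemma rnc_dep {d : ℕ} {i j k : Fin (d + 1)} (hij : i < j) (hjk : j < k) {E : Finset (Fin (d + 1))}
    (hi : i ∈ E) (hj : j ∈ E) (hk : k ∈ E) : ¬ Indep (rnc K d) E := by
  intro h
  have hij' : (i : ℕ) < j := hij
  have hjk' : (j : ℕ) < k := hjk
  have hkd : (k : ℕ) ≤ d := Nat.lt_succ_iff.1 k.2
  have h0 := h (X i ^ ((k : ℕ) - j) * X k ^ ((j : ℕ) - i) - X j ^ ((k : ℕ) - i)) ?_ ?_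
  · have h1 := congrArg (eval (fun l => if l = j then (1 : K) else 0)) h0
    rw [map_sub, map_mul, map_pow, map_pow, map_pow, eval_X, eval_X, eval_X, map_zero,
      if_neg hij.ne, if_neg hjk.ne', if_pos rfl, zero_pow (by omega), zero_mul, one_pow] at h1
    exact absurd h1 (by simp)
  · rintro z ⟨s, t, hz⟩
    rw [map_sub, map_mul, map_pow, map_pow, map_pow, aeval_X, aeval_X, aeval_X, hz, hz, hz,
      sub_eq_zero]
    rw [mul_pow, mul_pow, mul_pow, ← pow_mul, ← pow_mul, ← pow_mul, ← pow_mul, ← pow_mul,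
      ← pow_mul]
    have e1 : (d - (i : ℕ)) * ((k : ℕ) - j) + (d - (k : ℕ)) * ((j : ℕ) - i) =
        (d - (j : ℕ)) * ((k : ℕ) - i) := by
      obtain ⟨a, ha⟩ := Nat.exists_eq_add_of_le hij'.le
      obtain ⟨b, hb⟩ := Nat.exists_eq_add_of_le hjk'.le
      obtain ⟨c, hc⟩ := Nat.exists_eq_add_of_le hkd
      rw [show d - (i : ℕ) = a + b + c by omega, show (k : ℕ) - j = b by omega,
        show d - (k : ℕ) = c by omega, show (j : ℕ) - i = a by omega,
        show d - (j : ℕ) = b + c by omega, show (k : ℕ) - i = a + b by omega]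
      ring
    have e2 : (i : ℕ) * ((k : ℕ) - j) + (k : ℕ) * ((j : ℕ) - i) = (j : ℕ) * ((k : ℕ) - i) := by
      obtain ⟨a, ha⟩ := Nat.exists_eq_add_of_le hij'.le
      obtain ⟨b, hb⟩ := Nat.exists_eq_add_of_le hjk'.le
      rw [show (k : ℕ) - j = b by omega, show (j : ℕ) - i = a by omega,
        show (k : ℕ) - i = a + b by omega, hb, ha]
      ring
    rw [← e1, ← e2, pow_add, pow_add]
    ring
  · refine (vars_sub_subset _).trans (union_subset ((vars_mul _ _).trans (union_subset ?_ ?_)) ?_)
    · refine (vars_pow _ _).trans ?_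
      rw [vars_X]
      simpa using hi
    · refine (vars_pow _ _).trans ?_
      rw [vars_X]
      simpa using hk
    · refine (vars_pow _ _).trans ?_
      rw [vars_X]
      simpa using hj

omit [IsAlgClosed K] [CharZero K] in
lemma rnc2_dep : ¬ Indep (rnc2 K 4) univ := by
  intro h
  have h0 := h (X 0 * X 2 * X 4 + 2 * X 1 * X 2 * X 3 - X 2 ^ 3 - X 0 * X 3 ^ 2 - X 1 ^ 2 * X 4)
    ?_ (subset_univ _)
  · have h1 := congrArg (eval (fun l : Fin 5 => if l = 2 then (1 : K) else 0)) h0
    simp at h1
  · rintro _ ⟨x, ⟨s, t, hx⟩, y, ⟨u, v, hy⟩, rfl⟩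
    simp only [map_sub, map_add, map_mul, map_pow, aeval_X, Pi.add_apply, hx, hy, map_ofNat]
    norm_num
    ring

end rnc

/-! ### Finite combinatorics -/

lemma fin3_pair : ∀ E : Finset (Fin 3), E.card ≤ 2 → ∃ i j : Fin 3, i < j ∧ E ⊆ {i, j} := by
  decide

lemma fin5_pair : ∀ E : Finset (Fin 5), E.card ≤ 2 → ∃ i j : Fin 5, i < j ∧ E ⊆ {i, j} := by
  decide

lemma fin3_triple : ∀ E : Finset (Fin 3), ¬ E.card ≤ 2 →
    ∃ i j k : Fin 3, i < j ∧ j < k ∧ i ∈ E ∧ j ∈ E ∧ k ∈ E := by
  decide

lemma fin5_triple : ∀ E : Finset (Fin 5), ¬ E.card ≤ 2 →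
    ∃ i j k : Fin 5, i < j ∧ j < k ∧ i ∈ E ∧ j ∈ E ∧ k ∈ E := by
  decide

lemma fin5_four : ∀ E : Finset (Fin 5), E.card ≤ 4 → ∃ k : Fin 5, E ⊆ univ.erase k := by
  decide

lemma fin5_univ : ∀ E : Finset (Fin 5), ¬ E.card ≤ 4 → E = univ := by
  decide

/-! ### Products -/

section prod

variable {K : Type} [Field K] {A B : Type} [Fintype A] [DecidableEq A] [Fintype B] [DecidableEq B]

/-- The product of two sets. -/
def prodSet (Y : Set (A → K)) (Z : Set (B → K)) : Set (A ⊕ B → K) :=
  {z | (fun a => z (Sum.inl a)) ∈ Y ∧ (fun b => z (Sum.inr b)) ∈ Z}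

lemma indep_prod [Infinite K] {Y : Set (A → K)} {Z : Set (B → K)} (E : Finset (A ⊕ B)) :
    Indep (prodSet Y Z) E ↔ Indep Y E.toLeft ∧ Indep Z E.toRight := by
  constructor
  · intro h
    constructor
    · intro p hp hv
      have h1 : (rename Sum.inl p : MvPolynomial (A ⊕ B) K) = 0 := by
        apply h
        · intro z hz
          rw [aeval_rename]
          exact hp _ hz.1
        · intro e he
          obtain ⟨a, ha, rfl⟩ := mem_image.1 (vars_rename _ _ he)
          exact mem_toLeft.1 (hv ha)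
      exact rename_injective _ Sum.inl_injective (by rw [h1, map_zero])
    · intro p hp hv
      have h1 : (rename Sum.inr p : MvPolynomial (A ⊕ B) K) = 0 := by
        apply h
        · intro z hz
          rw [aeval_rename]
          exact hp _ hz.2
        · intro e he
          obtain ⟨a, ha, rfl⟩ := mem_image.1 (vars_rename _ _ he)
          exact mem_toRight.1 (hv ha)
      exact rename_injective _ Sum.inr_injective (by rw [h1, map_zero])
  · rintro ⟨h1, h2⟩ p hp hv
    -- the partial evaluations at the points of `Z` vanish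
    have h3 : ∀ z ∈ Z, aeval (Sum.elim (fun a => X a) (fun b => C (z b)) :
        A ⊕ B → MvPolynomial A K) p = 0 := by
      intro z hz
      apply h1
      · intro y hy
        rw [aeval_aeval]
        have h4 := hp (Sum.elim y z) ⟨hy, hz⟩
        rw [← h4]
        congr 2
        funext e
        rcases e with a | b
        · simp
        · simp
      · refine (vars_bind₁ _ _).trans ?_
        intro a ha
        obtain ⟨e, he, hae⟩ := mem_biUnion.1 ha
        rcases e with a' | b
        · have : a = a' := by simpa using hae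
          rw [this]
          exact mem_toLeft.2 (hv he)
        · simp at hae
    have h4 : ∀ y : A → K, aeval (Sum.elim (fun a => C (y a)) (fun b => X b) :
        A ⊕ B → MvPolynomial B K) p = 0 := by
      intro y
      apply h2
      · intro z hz
        rw [aeval_aeval]
        have h5 := congrArg (aeval y) (h3 z hz)
        rw [aeval_aeval, map_zero] at h5
        rw [← h5]
        congr 2
        funext e
        rcases e with a | b
        · simp
        · simp
      · refine (vars_bind₁ _ _).trans ?_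
        intro b hb
        obtain ⟨e, he, hbe⟩ := mem_biUnion.1 hb
        rcases e with a | b'
        · simp at hbe
        · have : b = b' := by simpa using hbe
          rw [this]
          exact mem_toRight.2 (hv he)
    apply MvPolynomial.funext
    intro x
    have h5 := congrArg (eval fun b => x (Sum.inr b)) (h4 fun a => x (Sum.inl a))
    rw [eval_aeval, map_zero] at h5
    rw [map_zero, ← h5]
    change aeval x p = _
    congr 2
    funext e
    rcases e with a | b
    · simp
    · simp

end prod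

/-! ### The example -/

section example_

variable {K : Type} [Field K] [IsAlgClosed K] [CharZero K]

/-- The cone: the product of the cone over a conic and the cone over a rational normal quartic. -/
def XX (K : Type) [Field K] : Set (Fin 3 ⊕ Fin 5 → K) := prodSet (rnc K 2) (rnc K 4)

lemma indep_XX (E : Finset (Fin 3 ⊕ Fin 5)) :
    Indep (XX K) E ↔ E.toLeft.card ≤ 2 ∧ E.toRight.card ≤ 2 := by
  unfold XX
  rw [indep_prod]
  refine and_congr ?_ ?_
  · constructor
    · intro h
      by_contra hcon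
      obtain ⟨i, j, k, h1, h2, h3, h4, h5⟩ := fin3_triple _ hcon
      exact rnc_dep h1 h2 h3 h4 h5 h
    · intro h
      obtain ⟨i, j, h1, h2⟩ := fin3_pair _ h
      exact (rnc_pair (by norm_num) h1).mono h2
  · constructor
    · intro h
      by_contra hcon
      obtain ⟨i, j, k, h1, h2, h3, h4, h5⟩ := fin5_triple _ hcon
      exact rnc_dep h1 h2 h3 h4 h5 h
    · intro h
      obtain ⟨i, j, h1, h2⟩ := fin5_pair _ h
      exact (rnc_pair (by norm_num) h1).mono h2

omit [IsAlgClosed K] [CharZero K] in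
lemma sum_XX : {z : Fin 3 ⊕ Fin 5 → K | ∃ x ∈ XX K, ∃ y ∈ XX K, z = x + y} =
    prodSet (rnc2 K 2) (rnc2 K 4) := by
  ext z
  constructor
  · rintro ⟨x, hx, y, hy, rfl⟩
    exact ⟨⟨_, hx.1, _, hy.1, rfl⟩, ⟨_, hx.2, _, hy.2, rfl⟩⟩
  · rintro ⟨⟨x, hx, y, hy, h⟩, ⟨x', hx', y', hy', h'⟩⟩
    refine ⟨Sum.elim x x', ⟨hx, hx'⟩, Sum.elim y y', ⟨hy, hy'⟩, ?_⟩
    funext e
    rcases e with a | b
    · exact congrFun h a
    · exact congrFun h' b

lemma indep_secant (E : Finset (Fin 3 ⊕ Fin 5)) :
    Indep (secant (XX K)) E ↔ E.toRight.card ≤ 4 := by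
  unfold secant
  rw [indep_closure, sum_XX, indep_prod]
  constructor
  · rintro ⟨-, h⟩
    by_contra hcon
    rw [fin5_univ _ hcon] at h
    exact rnc2_dep h
  · intro h
    refine ⟨rnc2_three.mono (subset_univ _), ?_⟩
    obtain ⟨k, hk⟩ := fin5_four _ h
    exact (rnc2_four k).mono hk

omit [IsAlgClosed K] [CharZero K] in
lemma hom_scale {σ : Type} [Fintype σ] {q : MvPolynomial σ K} {n : ℕ} (hq : q.IsHomogeneous n)
    (z : σ → K) (c : K) : aeval (fun e => c * z e) q = aeval z q * c ^ n := by
  rw [aeval_def, aeval_def, eval₂_eq', eval₂_eq', sum_mul]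
  refine sum_congr rfl fun m hm => ?_
  have h1 : ∑ e, m e = n := by
    have h2 := hq (mem_support_iff.1 hm)
    rw [← h2, ← Finsupp.degree_eq_sum, Finsupp.degree_eq_weight_one]
    rfl
  rw [← h1, ← prod_pow_eq_pow_sum, mul_assoc, ← prod_mul_distrib]
  congr 1
  refine prod_congr rfl fun e _ => ?_
  rw [mul_pow, mul_comm]

lemma cone_XX : IsIrrCone (XX K) := by
  -- the parametrization
  let Φ : Fin 3 ⊕ Fin 5 → MvPolynomial (Fin 4) K :=
    Sum.elim (fun i => X 0 ^ (2 - (i : ℕ)) * X 1 ^ (i : ℕ))
      (fun i => X 2 ^ (4 - (i : ℕ)) * X 3 ^ (i : ℕ))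
  have hΦ : ∀ p : MvPolynomial (Fin 3 ⊕ Fin 5) K,
      p ∈ vanishingIdeal K (XX K) ↔ aeval Φ p = 0 := by
    intro p
    constructor
    · intro hp
      apply MvPolynomial.funext
      intro x
      have h1 := hp (fun e => eval x (Φ e)) ⟨⟨x 0, x 1, fun i => by simp [Φ]⟩,
        ⟨x 2, x 3, fun i => by simp [Φ]⟩⟩
      rw [eval_aeval, h1, map_zero]
    · rintro hp z ⟨⟨s, t, h1⟩, ⟨u, v, h2⟩⟩
      have h3 := congrArg (eval ![s, t, u, v]) hp
      rw [eval_aeval, map_zero] at h3
      rw [← h3]
      congr 2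
      funext e
      rcases e with a | b
      · rw [show z (Sum.inl a) = s ^ (2 - (a : ℕ)) * t ^ (a : ℕ) from h1 a]
        simp [Φ]
      · rw [show z (Sum.inr b) = u ^ (4 - (b : ℕ)) * v ^ (b : ℕ) from h2 b]
        simp [Φ]
  refine ⟨?_, ?_, ?_⟩
  · apply le_antisymm
    · intro z hz
      constructor
      · apply rnc_closed (by norm_num)
        intro i j k l hijkl
        have h1 := hz (X (Sum.inl i) * X (Sum.inl j) - X (Sum.inl k) * X (Sum.inl l)) (by
          rintro y ⟨⟨s, t, hy⟩, -⟩
          have hi : (i : ℕ) ≤ 2 := Nat.lt_succ_iff.1 i.2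
          have hj : (j : ℕ) ≤ 2 := Nat.lt_succ_iff.1 j.2
          have hk : (k : ℕ) ≤ 2 := Nat.lt_succ_iff.1 k.2
          have hl : (l : ℕ) ≤ 2 := Nat.lt_succ_iff.1 l.2
          rw [map_sub, map_mul, map_mul, aeval_X, aeval_X, aeval_X, aeval_X, sub_eq_zero]
          rw [show y (Sum.inl i) = _ from hy i, show y (Sum.inl j) = _ from hy j,
            show y (Sum.inl k) = _ from hy k, show y (Sum.inl l) = _ from hy l,
            mul_mul_mul_comm, ← pow_add, ← pow_add, mul_mul_mul_comm, ← pow_add, ← pow_add, hijkl]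
          congr 2
          omega)
        rw [map_sub, map_mul, map_mul, aeval_X, aeval_X, aeval_X, aeval_X, sub_eq_zero] at h1
        exact h1
      · apply rnc_closed (by norm_num)
        intro i j k l hijkl
        have h1 := hz (X (Sum.inr i) * X (Sum.inr j) - X (Sum.inr k) * X (Sum.inr l)) (by
          rintro y ⟨-, ⟨s, t, hy⟩⟩
          have hi : (i : ℕ) ≤ 4 := Nat.lt_succ_iff.1 i.2
          have hj : (j : ℕ) ≤ 4 := Nat.lt_succ_iff.1 j.2
          have hk : (k : ℕ) ≤ 4 := Nat.lt_succ_iff.1 k.2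
          have hl : (l : ℕ) ≤ 4 := Nat.lt_succ_iff.1 l.2
          rw [map_sub, map_mul, map_mul, aeval_X, aeval_X, aeval_X, aeval_X, sub_eq_zero]
          rw [show y (Sum.inr i) = _ from hy i, show y (Sum.inr j) = _ from hy j,
            show y (Sum.inr k) = _ from hy k, show y (Sum.inr l) = _ from hy l,
            mul_mul_mul_comm, ← pow_add, ← pow_add, mul_mul_mul_comm, ← pow_add, ← pow_add, hijkl]
          congr 2
          omega)
        rw [map_sub, map_mul, map_mul, aeval_X, aeval_X, aeval_X, aeval_X, sub_eq_zero] at h1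
        exact h1
    · intro z hz p hp
      exact hp z hz
  · constructor
    · intro h
      have h1 : (1 : MvPolynomial (Fin 3 ⊕ Fin 5) K) ∈ vanishingIdeal K (XX K) := by
        rw [h]
        trivial
      rw [hΦ, map_one] at h1
      exact one_ne_zero h1
    · intro p q hpq
      rw [hΦ, map_mul] at hpq
      rw [hΦ, hΦ]
      exact mul_eq_zero.1 hpq
  · intro p hp d z hz
    -- the univariate polynomial of the values of the components
    let P : Polynomial K := ∑ i ∈ range (p.totalDegree + 1),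
      Polynomial.C (aeval z (homogeneousComponent i p)) * Polynomial.X ^ i
    have hP : P = 0 := by
      apply Polynomial.funext
      intro c
      have h1 : (fun e => c * z e) ∈ XX K :=
        ⟨rnc_smul (by norm_num) hz.1 c, rnc_smul (by norm_num) hz.2 c⟩
      have h2 := hp _ h1
      rw [← sum_homogeneousComponent p, map_sum] at h2
      rw [Polynomial.eval_zero, ← h2, Polynomial.eval_finsetSum]
      refine sum_congr rfl fun i _ => ?_
      rw [Polynomial.eval_mul, Polynomial.eval_C, Polynomial.eval_pow, Polynomial.eval_X,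
        hom_scale (homogeneousComponent_isHomogeneous i p)]
    by_cases hd : d ≤ p.totalDegree
    · have h1 := congrArg (Polynomial.coeff · d) hP
      simp only [P, Polynomial.finsetSum_coeff, Polynomial.coeff_C_mul, Polynomial.coeff_X_pow,
        Polynomial.coeff_zero, mul_ite, mul_one, mul_zero] at h1
      rw [sum_ite_eq, if_pos (by simp; omega)] at h1
      exact h1
    · rw [homogeneousComponent_eq_zero _ _ (by omega), map_zero]

omit [IsAlgClosed K] [CharZero K] in
lemma exists_split3 : ∀ E : Finset (Fin 3), ∃ I J : Finset (Fin 3),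
    I.card ≤ 2 ∧ J.card ≤ 2 ∧ E = I ∪ J := by
  decide

lemma exists_split5 (E : Finset (Fin 5)) (h : E.card ≤ 4) : ∃ I J : Finset (Fin 5),
    I.card ≤ 2 ∧ J.card ≤ 2 ∧ E = I ∪ J := by
  obtain ⟨I, hI, hc⟩ := exists_subset_card_eq (s := E) (n := E.card / 2) (by omega)
  refine ⟨I, E \ I, by omega, ?_, (union_sdiff_of_subset hI).symm⟩
  rw [card_sdiff_of_subset hI]
  omega

lemma terracini : TerraciniUnion (XX K) := by
  intro E
  rw [indep_secant]
  constructor
  · intro h
    obtain ⟨I, J, h1, h2, h3⟩ := exists_split3 E.toLeft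
    obtain ⟨I', J', h4, h5, h6⟩ := exists_split5 E.toRight h
    refine ⟨I.disjSum I', J.disjSum J', ?_, ?_, ?_⟩
    · rw [indep_XX, toLeft_disjSum, toRight_disjSum]
      exact ⟨h1, h4⟩
    · rw [indep_XX, toLeft_disjSum, toRight_disjSum]
      exact ⟨h2, h5⟩
    · ext e
      rcases e with a | b
      · have h7 : a ∈ E.toLeft ↔ a ∈ I ∪ J := by rw [h3]
        simpa using h7
      · have h7 : b ∈ E.toRight ↔ b ∈ I' ∪ J' := by rw [h6]
        simpa using h7
  · rintro ⟨I, J, hI, hJ, rfl⟩
    rw [indep_XX] at hI hJ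
    have h1 : (I ∪ J).toRight = I.toRight ∪ J.toRight := by
      ext b
      simp
    rw [h1]
    have := card_union_le I.toRight J.toRight
    omega

lemma card_left_right (E : Finset (Fin 3 ⊕ Fin 5)) : E.card = E.toLeft.card + E.toRight.card :=
  (card_toLeft_add_card_toRight).symm

lemma le_dim {σ : Type} [Fintype σ] [DecidableEq σ] {X : Set (σ → K)} {E : Finset σ}
    (h : Indep X E) : E.card ≤ dim X := by
  apply le_csSup
  · refine ⟨Fintype.card σ, ?_⟩
    rintro k ⟨E', -, rfl⟩
    exact card_le_univ _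
  · exact ⟨E, h, rfl⟩

lemma dim_le {σ : Type} [Fintype σ] [DecidableEq σ] {X : Set (σ → K)} {n : ℕ}
    (h : ∀ E : Finset σ, Indep X E → E.card ≤ n) : dim X ≤ n := by
  apply csSup_le'
  rintro k ⟨E, hE, rfl⟩
  exact h E hE

lemma defective : Defective (XX K) := by
  unfold Defective
  have h1 : dim (secant (XX K)) ≤ 7 := by
    apply dim_le
    intro E hE
    rw [indep_secant] at hE
    have h2 : E.toLeft.card ≤ 3 := (card_le_univ _).trans (by simp)
    rw [card_left_right]
    omega
  have h2 : 4 ≤ dim (XX K) := by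
    have h3 : Indep (XX K) (({0, 1} : Finset (Fin 3)).disjSum ({0, 1} : Finset (Fin 5))) := by
      rw [indep_XX, toLeft_disjSum, toRight_disjSum]
      decide
    have h4 := le_dim h3
    rwa [card_disjSum, show ({0, 1} : Finset (Fin 3)).card = 2 from rfl,
      show ({0, 1} : Finset (Fin 5)).card = 2 from rfl] at h4
  have h3 : Fintype.card (Fin 3 ⊕ Fin 5) = 8 := by simp
  rw [h3]
  omega

lemma basis_of_card {I : Finset (Fin 3)} {J : Finset (Fin 5)} (hI : I.card = 2) (hJ : J.card = 2) :
    IsBasis (XX K) (I.disjSum J) := by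
  constructor
  · rw [indep_XX, toLeft_disjSum, toRight_disjSum]
    omega
  · intro E' hE' hsub
    rw [indep_XX] at hE'
    apply (eq_of_subset_of_card_le hsub _).symm
    rw [card_disjSum, card_left_right]
    omega

lemma no_loop (e : Fin 3 ⊕ Fin 5) : ¬ IsLoop (XX K) e := by
  intro h
  rcases e with a | b
  · have h1 := h (({a} : Finset (Fin 3)).disjSum ∅) (by
      rw [indep_XX, toLeft_disjSum, toRight_disjSum]
      simp)
    simp at h1
  · have h1 := h ((∅ : Finset (Fin 3)).disjSum {b}) (by
      rw [indep_XX, toLeft_disjSum, toRight_disjSum]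
      simp)
    simp at h1

lemma avoid3 : ∀ a : Fin 3, ∃ I : Finset (Fin 3), I.card = 2 ∧ a ∉ I := by decide

lemma avoid5 : ∀ a : Fin 5, ∃ I : Finset (Fin 5), I.card = 2 ∧ a ∉ I := by decide

lemma no_coloop (e : Fin 3 ⊕ Fin 5) : ¬ IsColoop (XX K) e := by
  intro h
  rcases e with a | b
  · obtain ⟨I, hI, ha⟩ := avoid3 a
    have h1 := h _ (basis_of_card (K := K) hI (show ({0, 1} : Finset (Fin 5)).card = 2 from rfl))
    exact ha (by simpa using h1)
  · obtain ⟨J, hJ, hb⟩ := avoid5 b
    have h1 := h _ (basis_of_card (K := K) (show ({0, 1} : Finset (Fin 3)).card = 2 from rfl) hJ)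
    exact hb (by simpa using h1)

end example_

/-- **Counterexample.** Over every algebraically closed field of characteristic zero there is a
defective irreducible affine cone in `𝔸⁸` (coordinates indexed by `Fin 3 ⊕ Fin 5`) whose secant
matroid is a Terracini union and whose matroid has neither a loop nor a coloop. -/
theorem result (K : Type) [Field K] [IsAlgClosed K] [CharZero K] :
    ∃ X : Set (Fin 3 ⊕ Fin 5 → K), IsIrrCone X ∧ Defective X ∧ TerraciniUnion X ∧
      ∀ e, ¬ IsLoop X e ∧ ¬ IsColoop X e :=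
  ⟨XX K, cone_XX, defective, terracini, fun e => ⟨no_loop e, no_coloop e⟩⟩

end Pool.Agent.Results.MP_0cb83c_co.NoColoop
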